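import Pool.Agent.Helper53.PF.St

/-! Project PF, module REP: `k[t]` over `k[s]`, `deg s = 3`: existence of the representation. -/

set_option autoImplicit false

namespace PF.Helper96

open Polynomial

lemma low {k : Type} [Field k] (f : k[X]) (hf : f.natDegree < 3) :
    f = C (f.coeff 0) + C (f.coeff 1) * X + C (f.coeff 2) * X ^ 2 := by
  conv_lhs => rw [f.as_sum_range' 3 hf]
  simp only [Finset.sum_range_succ, Finset.sum_range_zero, zero_add, ← C_mul_X_pow_eq_monomial,
    pow_zero, mul_one, pow_one]

theorem holds_REP : PF.StREP := by
  intro k _ s f hs
  have hs0 : s ≠ 0 := by
    rintro rfl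
    simp at hs
  induction hd : f.natDegree using Nat.strong_induction_on generalizing f with
  | _ d ih =>
    by_cases hd3 : d < 3
    · have hf := low f (by omega)
      refine ⟨C (f.coeff 0), C (f.coeff 1), C (f.coeff 2), ?_, ?_, ?_, ?_⟩
      · rw [C_comp, C_comp, C_comp]
        exact hf
      · rw [natDegree_C]
        omega
      · intro hb
        rw [natDegree_C]
        have h1 : f.coeff 1 ≠ 0 := fun h => hb (by rw [h, C_0])
        have := le_natDegree_of_ne_zero h1
        omega
      · intro hc
        rw [natDegree_C]
        have h1 : f.coeff 2 ≠ 0 := fun h => hc (by rw [h, C_0])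
        have := le_natDegree_of_ne_zero h1
        omega
    · have hdm : s * (f / s) + f % s = f := EuclideanDomain.div_add_mod f s
      have hr : (f % s).natDegree < 3 := by
        have := natDegree_mod_lt f (q := s) (by omega)
        omega
      have hq : (f / s).natDegree = d - 3 := by
        have hf0 : f ≠ 0 := by
          rintro rfl
          rw [natDegree_zero] at hd
          omega
        have h1 : s.degree + (f / s).degree = f.degree := by
          apply degree_add_div hs0
          rw [degree_eq_natDegree hs0, degree_eq_natDegree hf0, hs, hd]
          exact_mod_cast (by omega : 3 ≤ d)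
        have hq0 : f / s ≠ 0 := by
          intro h0
          rw [h0, degree_zero, WithBot.add_bot, eq_comm, degree_eq_bot] at h1
          exact hf0 h1
        rw [degree_eq_natDegree hs0, degree_eq_natDegree hq0, degree_eq_natDegree hf0, hs, hd] at h1
        have h2 : 3 + (f / s).natDegree = d := by exact_mod_cast h1
        omega
      obtain ⟨a, b, c, hrep, ha, hb, hc⟩ := ih (d - 3) (by omega) (f / s) hq
      have hlow := low (f % s) hr
      refine ⟨X * a + C ((f % s).coeff 0), X * b + C ((f % s).coeff 1),
        X * c + C ((f % s).coeff 2), ?_, ?_, ?_, ?_⟩
      · rw [add_comp, add_comp, add_comp, mul_comp, mul_comp, mul_comp, X_comp, C_comp, C_comp,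
          C_comp]
        conv_lhs => rw [← hdm, hlow, hrep]
        ring
      · have h1 : (X * a + C ((f % s).coeff 0)).natDegree ≤ 1 + a.natDegree := by
          refine (natDegree_add_le _ _).trans (max_le ?_ ?_)
          · refine natDegree_mul_le.trans ?_
            rw [natDegree_X]
          · rw [natDegree_C]
            omega
        omega
      · intro _
        by_cases hb0 : b = 0
        · rw [hb0, mul_zero, zero_add, natDegree_C]
          omega
        · have h1 : (X * b + C ((f % s).coeff 1)).natDegree ≤ 1 + b.natDegree := by
            refine (natDegree_add_le _ _).trans (max_le ?_ ?_)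
            · refine natDegree_mul_le.trans ?_
              rw [natDegree_X]
            · rw [natDegree_C]
              omega
          have h2 := hb hb0
          omega
      · intro _
        by_cases hc0 : c = 0
        · rw [hc0, mul_zero, zero_add, natDegree_C]
          omega
        · have h1 : (X * c + C ((f % s).coeff 2)).natDegree ≤ 1 + c.natDegree := by
            refine (natDegree_add_le _ _).trans (max_le ?_ ?_)
            · refine natDegree_mul_le.trans ?_
              rw [natDegree_X]
            · rw [natDegree_C]
              omega
          have h2 := hc hc0
          omega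

end PF.Helper96
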